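import Pool.Agent.CR44.Red

/-!
# The question for all numbers follows from a finite statement

If `993` and `3531` have the two largest residues (up to powers of two) below `2^408`, then `993` has the largest
residue of all.
-/

set_option autoImplicit false

namespace CR44

open ColRes81

lemma C_993 {n j : ℕ} (h : C n = 2 ^ j * 993) : n = 2 ^ (j + 1) * 993 := by
  unfold C at h
  have h1 : 2 ^ (j + 1) * 993 = 2 * (2 ^ j * 993) := by ring
  split_ifs at h with h2
  · omega
  · have : 2 ^ j * 993 = 3 * (331 * 2 ^ j) := by ring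
    omega

/-- `993` is divisible by `3`, so only the numbers `993 * 2^j` lead to it. -/
lemma iter_993 (k : ℕ) : ∀ x j : ℕ, C^[k] x = 2 ^ j * 993 → ∃ i, x = 2 ^ i * 993 := by
  induction k with
  | zero => intro x j h; exact ⟨j, h⟩
  | succ k ih =>
    intro x j h
    rw [Function.iterate_succ_apply] at h
    obtain ⟨i, hi⟩ := ih _ _ h
    exact ⟨i + 1, C_993 hi⟩

lemma Res_step {c d j : ℕ} (hc : Convergent c) (hodd : c % 2 = 1) (h1 : c ≠ 1) (hd : 0 < d)
    (h : 3 * c + 1 = 2 ^ j * d) : Convergent d ∧ Res c = Res d * (1 + 1 / (3 * (c : ℝ))) := by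
  have h2 := conv_C hc
  have h4 := Res_C hc h1
  rw [if_pos hodd] at h4
  rw [C_odd hodd, h] at h2 h4
  obtain ⟨h5, h6⟩ := Res_pow _ _ hd h2
  rw [h6] at h4
  exact ⟨h5, h4⟩

lemma conv_993 : Convergent 993 := ⟨by norm_num, 93, by decide +kernel⟩

lemma conv_3531 : Convergent 3531 := ⟨by norm_num, 100, by decide +kernel⟩

lemma res_ratio : 0 < Res 745 ∧ Res 993 = Res 745 * (1 + 1 / 2979) ∧
    Res 3531 = Res 745 * (1 + 1 / 11919) * (1 + 1 / 15891) * (1 + 1 / 10593) := by
  obtain ⟨h1, h2⟩ := Res_step (d := 745) (j := 2) conv_993 (by norm_num) (by norm_num) (by norm_num) (by norm_num)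
  obtain ⟨h3, h4⟩ := Res_step (d := 5297) (j := 1) conv_3531 (by norm_num) (by norm_num) (by norm_num)
    (by norm_num)
  obtain ⟨h5, h6⟩ := Res_step (d := 3973) (j := 2) h3 (by norm_num) (by norm_num) (by norm_num) (by norm_num)
  obtain ⟨h7, h8⟩ := Res_step (d := 745) (j := 4) h5 (by norm_num) (by norm_num) (by norm_num) (by norm_num)
  refine ⟨Res_pos h1, ?_, ?_⟩
  · rw [h2]; norm_num
  · rw [h4, h6, h8]; norm_num

lemma exp_408 : Real.exp (23 * (97 / 100) ^ 408) ≤ 1 + 93 / 1000000 := by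
  have h1 : (23 : ℝ) * (97 / 100) ^ 408 ≤ 925 / 10000000 := by
    rw [show 408 = 204 * 2 from rfl, pow_mul]
    norm_num
  have h2 : Real.exp (23 * (97 / 100) ^ 408) ≤ Real.exp (925 / 10000000) := Real.exp_le_exp.2 h1
  have h3 : 1 - (925 / 10000000 : ℝ) ≤ Real.exp (-(925 / 10000000)) := by
    have := Real.add_one_le_exp (-(925 / 10000000 : ℝ))
    linarith
  have h4 : Real.exp (925 / 10000000) * Real.exp (-(925 / 10000000)) = 1 := by
    rw [← Real.exp_add]; simp
  have h5 := Real.exp_pos (925 / 10000000 : ℝ)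
  nlinarith

/-- If `993` and `3531` have the two largest residues below `2^408`, then `993` has the largest residue. -/
theorem finite_check
    (h : ∀ y < 2 ^ 408, Convergent y → (∃ j, y = 2 ^ j * 993) ∨ Res y ≤ Res 3531) (x : ℕ) (hx : Convergent x) :
    (∃ j, x = 2 ^ j * 993) ∨ Res x < Res 993 := by
  obtain ⟨k, h1, -, -, h4⟩ := red (b₀ := 408) (K := Real.exp (23 * (97 / 100) ^ 408)) (by norm_num) [] rfl (by
    refine Real.exp_le_exp.2 ?_
    have h : (0 : ℝ) < (97 / 100) ^ 408 := by positivity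
    simp only [List.map_nil, List.sum_nil, Nat.cast_zero, zero_div, zero_mul, zero_add, List.length_nil, add_zero]
    generalize ((97 / 100 : ℝ)) ^ 408 = t at h
    linarith) hx
  rcases h _ h1 (conv_iter k x hx) with ⟨j, hj⟩ | h5
  · exact Or.inl (iter_993 k x j hj)
  · right
    obtain ⟨h6, h7, h8⟩ := res_ratio
    have h9 := Res_pos (conv_iter k x hx)
    have h10 : Res x ≤ (1 + 93 / 1000000) * Res 3531 := by
      refine h4.trans (mul_le_mul exp_408 h5 h9.le (by norm_num))
    rw [h7]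
    rw [h8] at h10
    have h11 : (1 + 93 / 1000000 : ℝ) * ((1 + 1 / 11919) * (1 + 1 / 15891) * (1 + 1 / 10593)) < 1 + 1 / 2979 := by
      norm_num
    nlinarith

end CR44
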