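import Pool.Agent.CR44.LowT
import Pool.Agent.CR44.Fin

/-!
# Trajectories with few odd terms in the windows `[2^20, 2^m)`

If the numbers `g c q (2^m)`, `21 ≤ m ≤ 560`, of terms below `2^m` are at most `2^(m/2) / 9`, then the terms `≥ 2^20`
contribute less to the residue than the gap between `993` and the other numbers below `2^20`.
-/

set_option autoImplicit false

namespace CR44

open ColRes81

/-- One dyadic cell. -/
lemma cell_f {c q b : ℕ} (hb : 20 ≤ b) {G : ℝ} (hG : (g c q (2 ^ (b + 1)) : ℝ) ≤ G) :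
    ∑ t ∈ Finset.Ico (2 ^ b - 1) (2 ^ (b + 1) - 1), f c q t ≤ G * ((1 + 1 / 2 ^ 18) / 2 ^ (b + 1)) := by
  have hp : 2 ^ 20 ≤ 2 ^ b := Nat.pow_le_pow_right (by norm_num) (by omega)
  norm_num at hp
  have hG0 : (0 : ℝ) ≤ G := le_trans (Nat.cast_nonneg _) hG
  have h1 : 2 ^ (b + 1) - 1 = (2 ^ b - 1) + 2 ^ b := by rw [pow_succ]; omega
  calc _ ≤ ∑ t ∈ Finset.Ico (2 ^ b - 1) (2 ^ (b + 1) - 1), G * (1 / (((t : ℕ) : ℝ) * (t + 1))) := by
        apply Finset.sum_le_sum
        intro t ht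
        rw [Finset.mem_Ico] at ht
        unfold f
        apply mul_le_mul_of_nonneg_right _ (by positivity)
        refine le_trans ?_ hG
        exact_mod_cast g_mono c q (by omega : t + 1 ≤ 2 ^ (b + 1))
    _ = G * (1 / ((2 ^ b - 1 : ℕ) : ℝ) - 1 / (((2 ^ b - 1 : ℕ) : ℝ) + ((2 ^ b : ℕ) : ℝ))) := by
        rw [← Finset.mul_sum, h1, sum_phi _ _ (by omega)]
    _ ≤ _ := by
        apply mul_le_mul_of_nonneg_left _ hG0
        have h2 : ((2 ^ b - 1 : ℕ) : ℝ) = 2 ^ b - 1 := by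
          rw [Nat.cast_sub (by omega)]
          push_cast
          ring
        have h0' : (1048576 : ℝ) ≤ 2 ^ b := by exact_mod_cast hp
        rw [h2, show (2 : ℝ) ^ (b + 1) = 2 ^ b * 2 from pow_succ _ _]
        push_cast
        obtain ⟨y, hy⟩ : ∃ y : ℝ, y = 2 ^ b := ⟨_, rfl⟩
        rw [← hy] at h0' ⊢
        have e1 : 1 / (y - 1) - 1 / (y - 1 + y) = y / ((y - 1) * (y - 1 + y)) := by
          have h1 : y - 1 ≠ 0 := by linarith
          have h2 : y - 1 + y ≠ 0 := by linarith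
          field_simp
          ring
        rw [e1, div_le_div_iff₀ (by apply mul_pos <;> linarith) (by linarith)]
        nlinarith

/-- The cells `20, .., 20 + n - 1`. -/
lemma cells_f {c q : ℕ} {s : ℝ} (hs : s * s = 2) (hs0 : 0 < s) (n : ℕ)
    (h : ∀ m, 21 ≤ m → m ≤ 20 + n → (g c q (2 ^ m) : ℝ) ≤ s ^ m / 9) :
    ∑ t ∈ Finset.Ico (2 ^ 20 - 1) (2 ^ (20 + n) - 1), f c q t ≤
      (1 + 1 / 2 ^ 18) / 9 / 1024 * ((1 + s) * (1 - (s / 2) ^ n)) := by
  induction n with
  | zero => simp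
  | succ n ih =>
    have h1 := ih fun m h1 h2 => h m h1 (by omega)
    have h4 : 2 ^ 20 ≤ 2 ^ (20 + n) := Nat.pow_le_pow_right (by norm_num) (by omega)
    have h5 : 2 ^ (20 + n) ≤ 2 ^ (20 + (n + 1)) := Nat.pow_le_pow_right (by norm_num) (by omega)
    rw [← Finset.sum_Ico_consecutive _ (Nat.sub_le_sub_right h4 1) (Nat.sub_le_sub_right h5 1)]
    have h6 := cell_f (c := c) (q := q) (b := 20 + n) (by omega) (h (20 + n + 1) (by omega) (by omega))
    have h7 : s ^ (20 + n + 1) / 9 * ((1 + 1 / 2 ^ 18) / 2 ^ (20 + n + 1)) =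
        (1 + 1 / 2 ^ 18) / 9 / 1024 * (s / 2) ^ (n + 1) := by
      have e20 : s ^ 20 = 1024 := by
        have : s ^ 20 = (s * s) ^ 10 := by ring
        rw [this, hs]
        norm_num
      have e1 : s ^ (20 + n + 1) = 1024 * s ^ (n + 1) := by
        rw [add_assoc, pow_add, e20]
      have e2 : (2 : ℝ) ^ (20 + n + 1) = 1048576 * 2 ^ (n + 1) := by
        rw [add_assoc, pow_add]
        norm_num
      rw [e1, e2, div_pow]
      field_simp
      norm_num
    rw [h7] at h6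
    have h8 : (1 + 1 / 2 ^ 18 : ℝ) / 9 / 1024 * ((1 + s) * (1 - (s / 2) ^ (n + 1))) =
        (1 + 1 / 2 ^ 18) / 9 / 1024 * ((1 + s) * (1 - (s / 2) ^ n)) +
          (1 + 1 / 2 ^ 18) / 9 / 1024 * (s / 2) ^ (n + 1) := by
      have e3 : (s / 2) ^ (n + 1) = (s / 2) ^ n * (s / 2) := pow_succ _ _
      rw [e3]
      linear_combination (-(1 + 1 / 2 ^ 18 : ℝ) / 9 / 1024 * (s / 2) ^ n / 2) * hs
    rw [h8]
    exact add_le_add h1 h6

/-- The sum of the inverses of the terms before the first one below `2^20`. -/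
theorem sum_leB {c q B n : ℕ} (hB : B = 20 + n) (h : Orb c q (2 ^ 20))
    (hg : ∀ m, 21 ≤ m → m ≤ B → 81 * g c q (2 ^ m) ^ 2 ≤ 2 ^ m)
    (h97' : (97 / 100 : ℝ) ^ B ≤ 4 / 100000000) :
    ∑ i ∈ Finset.range q, (1 : ℝ) / (Syr^[i] c : ℕ) ≤ 265 / 1000000 := by
  have hs : Real.sqrt 2 * Real.sqrt 2 = 2 := Real.mul_self_sqrt (by norm_num)
  have hs0 : 0 < Real.sqrt 2 := Real.sqrt_pos.2 (by norm_num)
  obtain ⟨s, hse⟩ : ∃ s, Real.sqrt 2 = s := ⟨_, rfl⟩
  rw [hse] at hs hs0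
  have hs1 : s ≤ 141422 / 100000 := by nlinarith
  -- a power of two above all terms
  obtain ⟨B', hB', hM⟩ : ∃ B', B ≤ B' ∧ ∀ i < q, Syr^[i] c < 2 ^ B' - 1 := by
    obtain ⟨A, hA⟩ : ∃ A, ∀ i < q, Syr^[i] c ≤ A := by
      refine ⟨∑ i ∈ Finset.range q, Syr^[i] c, fun i hi => ?_⟩
      exact Finset.single_le_sum (f := fun i => Syr^[i] c) (fun _ _ => Nat.zero_le _) (Finset.mem_range.2 hi)
    refine ⟨A + B, by omega, fun i hi => ?_⟩
    have h1 := hA i hi
    have h2 : A + B < 2 ^ (A + B) := Nat.lt_two_pow_self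
    omega
  obtain ⟨m, rfl⟩ : ∃ m, B' = B + m := Nat.exists_eq_add_of_le hB'
  rw [sum_eq h.odd fun i hi => (hM i hi).le]
  have hp0 : 2 ^ 20 ≤ 2 ^ B := Nat.pow_le_pow_right (by norm_num) (by omega)
  have hp3 : 2 ^ B ≤ 2 ^ (B + m) := Nat.pow_le_pow_right (by norm_num) (by omega)
  have hp4 : 1 ≤ 2 ^ 20 - 1 := by norm_num
  have h1 : ∑ t ∈ Finset.Ico 1 (2 ^ (B + m) - 1), f c q t =
      ∑ t ∈ Finset.Ico 1 (2 ^ 20 - 1), f c q t + (∑ t ∈ Finset.Ico (2 ^ 20 - 1) (2 ^ B - 1), f c q t +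
        ∑ t ∈ Finset.Ico (2 ^ B - 1) (2 ^ (B + m) - 1), f c q t) := by
    rw [Finset.sum_Ico_consecutive _ (Nat.sub_le_sub_right hp0 1) (Nat.sub_le_sub_right hp3 1),
      Finset.sum_Ico_consecutive _ hp4 (Nat.sub_le_sub_right (hp0.trans hp3) 1)]
  have h2 : ∑ t ∈ Finset.Ico 1 (2 ^ 20 - 1), f c q t = 0 := by
    refine Finset.sum_eq_zero fun t ht => ?_
    rw [Finset.mem_Ico] at ht
    unfold f
    rw [h.g_zero (by omega), Nat.cast_zero, zero_mul]
  have h3 := cells_f (c := c) (q := q) hs hs0 n fun m h1 h2 => by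
    have h4 := hg m h1 (by omega)
    have h5 : (81 : ℝ) * (g c q (2 ^ m) : ℝ) ^ 2 ≤ 2 ^ m := by exact_mod_cast h4
    have h6 : s ^ m * s ^ m = 2 ^ m := by rw [← mul_pow, hs]
    have h7 : (0 : ℝ) < s ^ m := pow_pos hs0 m
    have h8 : (0 : ℝ) ≤ g c q (2 ^ m) := Nat.cast_nonneg _
    rw [le_div_iff₀ (by norm_num)]
    by_contra hcon
    push Not at hcon
    nlinarith
  have h4 := tail_sumN h le_rfl B m (by omega)
  have h97 : (0 : ℝ) < (97 / 100) ^ B := by positivity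
  have h5 : (97 / 50 : ℝ) * (97 / 100) ^ B * ((1 - (97 / 100) ^ m) / (3 / 100)) ≤
      97 / 50 * (97 / 100) ^ B * (1 / (3 / 100)) := by
    apply mul_le_mul_of_nonneg_left _ (by positivity)
    apply div_le_div_of_nonneg_right _ (by norm_num)
    have : (0 : ℝ) < (97 / 100) ^ m := by positivity
    linarith
  have h6 : (q : ℝ) * (1 / ((2 ^ (B + m) - 1 : ℕ) : ℝ)) ≤ 2 * (97 / 100) ^ B := by
    have h7 : (q : ℝ) ≤ (97 / 50) ^ (B + m) := by
      refine le_trans (le_of_eq ?_) (tailN h le_rfl (B + m))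
      unfold g
      rw [Finset.filter_true_of_mem, Finset.card_range]
      intro i hi
      have := hM i (Finset.mem_range.1 hi)
      omega
    have h8 : (2 : ℝ) ^ (B + m) / 2 ≤ ((2 ^ (B + m) - 1 : ℕ) : ℝ) := by
      rw [Nat.cast_sub (by omega)]
      push_cast
      have : (2 : ℝ) ≤ 2 ^ (B + m) := by
        calc (2 : ℝ) = 2 ^ 1 := by norm_num
          _ ≤ 2 ^ (B + m) := pow_le_pow_right₀ (by norm_num) (by omega)
      linarith
    calc (q : ℝ) * (1 / ((2 ^ (B + m) - 1 : ℕ) : ℝ)) ≤ (97 / 50) ^ (B + m) * (1 / (2 ^ (B + m) / 2)) := by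
          apply mul_le_mul h7 _ (by positivity) (by positivity)
          exact one_div_le_one_div_of_le (by positivity) h8
      _ = 2 * (97 / 100) ^ (B + m) := by
          rw [mul_one_div, div_div_eq_mul_div, mul_comm, mul_div_assoc, ← div_pow]
          norm_num
      _ ≤ 2 * (97 / 100) ^ B := by
          apply mul_le_mul_of_nonneg_left _ (by norm_num)
          exact pow_le_pow_of_le_one (by norm_num) (by norm_num) (by omega)
  have h9 : (1 + 1 / 2 ^ 18 : ℝ) / 9 / 1024 * ((1 + s) * (1 - (s / 2) ^ n)) ≤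
      (1 + 1 / 2 ^ 18) / 9 / 1024 * (241422 / 100000) := by
    apply mul_le_mul_of_nonneg_left _ (by positivity)
    have h10 : (0 : ℝ) < (s / 2) ^ n := by positivity
    nlinarith
  have h11 : (1 + 1 / 2 ^ 18 : ℝ) / 9 / 1024 * (241422 / 100000) ≤ 262 / 1000000 := by norm_num
  rw [← hB] at h3
  have h12 := (h3.trans h9).trans h11
  rw [h1, h2, zero_add]
  linarith

theorem sum_leS {c q : ℕ} (h : Orb c q (2 ^ 20))
    (hg : ∀ m, 21 ≤ m → m ≤ 560 → 81 * g c q (2 ^ m) ^ 2 ≤ 2 ^ m) :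
    ∑ i ∈ Finset.range q, (1 : ℝ) / (Syr^[i] c : ℕ) ≤ 265 / 1000000 := by
  refine sum_leB (B := 560) (n := 540) rfl h hg ?_
  rw [show 560 = 140 * 4 from rfl, pow_mul]
  norm_num

/-! ### Counting odd terms of the trajectory -/

/-- The number of odd terms `≥ 2^20` and `< 2^m` among the first `k`. -/
def cntk (k x m : ℕ) : ℕ :=
  ((Finset.range k).filter (fun i => C^[i] x % 2 = 1 ∧ 2 ^ 20 ≤ C^[i] x ∧ C^[i] x < 2 ^ m)).card

lemma cntk_succ (k x m : ℕ) :
    cntk (k + 1) x m = cntk k (C x) m + if x % 2 = 1 ∧ 2 ^ 20 ≤ x ∧ x < 2 ^ m then 1 else 0 := by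
  unfold cntk
  rw [Finset.card_filter, Finset.card_filter, Finset.sum_range_succ']
  rfl

lemma cnt_C {x : ℕ} (hx : Convergent x) (h1 : x ≠ 1) (m : ℕ) :
    cntk (len x) x m = cntk (len (C x)) (C x) m + if x % 2 = 1 ∧ 2 ^ 20 ≤ x ∧ x < 2 ^ m then 1 else 0 := by
  rw [(len_C hx h1).2, cntk_succ]

lemma cnt_pow (m j : ℕ) : ∀ c : ℕ, 0 < c → Convergent (2 ^ j * c) →
    cntk (len (2 ^ j * c)) (2 ^ j * c) m = cntk (len c) c m := by
  induction j with
  | zero => intro c _ h; rw [pow_zero, one_mul]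
  | succ j ih =>
    intro c hc h
    have h1 : 2 ^ (j + 1) * c = 2 * (2 ^ j * c) := by ring
    rw [h1] at h ⊢
    have h2 : 0 < 2 ^ j * c := by positivity
    have h3 : C (2 * (2 ^ j * c)) = 2 ^ j * c := by
      rw [C_even (by omega)]
      omega
    have h4 := conv_C h
    have h6 := cnt_C h (by omega) m
    rw [h3] at h4 h6
    rw [if_neg (by omega), add_zero] at h6
    rw [h6, ih c hc h4]

lemma g_succ (c q N : ℕ) : g c (q + 1) N = g (Syr c) q N + if c < N then 1 else 0 := by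
  unfold g
  rw [Finset.card_filter, Finset.card_filter, Finset.sum_range_succ']
  rfl

lemma g_le_cnt (m q : ℕ) : ∀ c : ℕ, Convergent c → Orb c q (2 ^ 20) →
    g c q (2 ^ m) ≤ cntk (len c) c m := by
  induction q with
  | zero => intro c _ _; simp [g]
  | succ q ih =>
    intro c hc h
    have hge : 2 ^ 20 ≤ c := h.ge 0 (by omega)
    have hS : Orb (Syr c) q (2 ^ 20) := ⟨Syr_odd c, fun i hi => by
      have := h.ge (i + 1) (by omega)
      rwa [Function.iterate_succ_apply] at this, by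
      have := h.lt
      rwa [Function.iterate_succ_apply] at this⟩
    have hc1 : c ≠ 1 := by
      rintro rfl
      norm_num at hge
    have hCc : C c = 2 ^ ((3 * c + 1).factorization 2) * Syr c := by
      rw [C_odd h.odd, Syr_eq c]
    have hCv := conv_C hc
    have hpos : 0 < Syr c := by
      have := Syr_odd c
      omega
    have h1 := cnt_C hc hc1 m
    rw [hCc] at hCv h1
    rw [cnt_pow m _ _ hpos hCv] at h1
    have h2 := (Res_pow _ _ hpos hCv).1
    have h3 := ih (Syr c) h2 hS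
    rw [g_succ, h1]
    apply Nat.add_le_add h3
    by_cases h4 : c < 2 ^ m
    · rw [if_pos h4, if_pos ⟨h.odd, hge, h4⟩]
    · rw [if_neg h4]
      exact Nat.zero_le _

/-! ### The residue of `993` -/

lemma len_993 : len 993 = 93 := by
  apply le_antisymm
  · exact Nat.sInf_le (show C^[93] 993 = 1 by decide +kernel)
  · by_contra hcon
    push Not at hcon
    have h1 := len_spec conv_993
    have h2 : ∀ k < 93, C^[k] 993 ≠ 1 := by decide +kernel
    exact h2 _ hcon h1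

lemma Res_993 : Res 993 = 2 ^ 61 / (993 * 3 ^ 32) := by
  have hE : E 993 = 61 := by
    unfold E
    rw [len_993]
    decide +kernel
  have hO : O 993 = 32 := by
    unfold O
    rw [len_993]
    decide +kernel
  unfold Res
  rw [hE, hO]
  norm_num

/-- The criterion. -/
theorem crit {x : ℕ} (hx : Convergent x)
    (h : ∀ m, 21 ≤ m → m ≤ 560 → 81 * cntk (len x) x m ^ 2 ≤ 2 ^ m) :
    (∃ j, x = 2 ^ j * 993) ∨ Res x < Res 993 := by
  obtain ⟨j, c, hc, rfl⟩ : ∃ j c, c % 2 = 1 ∧ x = 2 ^ j * c := by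
    refine ⟨x.factorization 2, ordCompl[2] x, ?_, (Nat.ordProj_mul_ordCompl_eq_self _ _).symm⟩
    have h : ¬ 2 ∣ ordCompl[2] x := Nat.not_dvd_ordCompl Nat.prime_two hx.1.ne'
    omega
  obtain ⟨hcc, hR⟩ := Res_pow j c (by omega) hx
  classical
  obtain ⟨j', hj'⟩ := reach (len c) c hcc hc le_rfl
  have hex : ∃ j, Syr^[j] c < 2 ^ 20 := ⟨j', by rw [hj']; norm_num⟩
  have horb : Orb c (Nat.find hex) (2 ^ 20) :=
    ⟨hc, fun i hi => not_lt.1 (Nat.find_min hex hi), Nat.find_spec hex⟩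
  have hsum := sum_leS horb fun m h1 h2 => by
    refine le_trans (Nat.mul_le_mul_left _ (Nat.pow_le_pow_left ?_ 2)) (h m h1 h2)
    rw [cnt_pow m j c (by omega) hx]
    exact g_le_cnt m _ c hcc horb
  obtain ⟨h2, h3, h4⟩ := Res_iter (Nat.find hex) c hcc hc fun i hi h4 => by
    have := horb.ge i hi
    norm_num at this
    omega
  rcases low (Syr_iter_odd hc _) horb.lt h2 with h5 | h5
  · left
    obtain ⟨k, i, h6, -, -⟩ := first_term (Nat.find hex) j c horb
    rw [h5] at h6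
    exact iter_993 k _ i h6
  · right
    rw [hR]
    refine lt_of_le_of_lt h4 ?_
    have h6 : Real.exp (1 / 3 * ∑ i ∈ Finset.range (Nat.find hex), (1 : ℝ) / (Syr^[i] c : ℕ)) ≤
        Real.exp (884 / 10000000) := by
      apply Real.exp_le_exp.2
      linarith
    have h7 : Real.exp (884 / 10000000) ≤ 1 + 88409 / 1000000000 := by
      have h3 : 1 - (884 / 10000000 : ℝ) ≤ Real.exp (-(884 / 10000000)) := by
        have := Real.add_one_le_exp (-(884 / 10000000 : ℝ))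
        linarith
      have h4 : Real.exp (884 / 10000000) * Real.exp (-(884 / 10000000)) = 1 := by
        rw [← Real.exp_add]; simp
      have h5 := Real.exp_pos (884 / 10000000 : ℝ)
      nlinarith
    calc _ ≤ (1 + 88409 / 1000000000 : ℝ) * (125303 / 100000) :=
          mul_le_mul (h6.trans h7) h5 (Res_pos h2).le (by norm_num)
      _ < Res 993 := by
          rw [Res_993]
          norm_num

end CR44
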