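import Pool.Agent.CR44.Low

/-!
# The residues of the numbers below `2^20`: kernel computation, part 0
-/

set_option autoImplicit false

namespace CR44

lemma ltab : allP (tchk 60) 11 1 = true := by decide +kernel

lemma ldom : allP dchk 11 1 = true := by decide +kernel

lemma l12 : allP (mchk 150) 11 (2 ^ 12 + 1) = true := by decide +kernel

lemma l13 : allP (mchk 150) 12 (2 ^ 13 + 1) = true := by decide +kernel

lemma l14 : allP (mchk 150) 13 (2 ^ 14 + 1) = true := by decide +kernel

lemma l15a : allP (mchk 150) 13 (2 ^ 15 + 1) = true := by decide +kernel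

lemma l15b : allP (mchk 150) 13 (2 ^ 15 + 2 ^ 14 + 1) = true := by decide +kernel

end CR44
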