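import Pool.Agent.CR44.L6

/-!
# The residues of the numbers below `2^20`: kernel computation, part 10
(the import only limits the number of these files that are built at the same time)
-/

set_option autoImplicit false

namespace CR44

private lemma p0 : allP (mchk 150) 12 655361 = true := by decide +kernel

private lemma p1 : allP (mchk 150) 12 663553 = true := by decide +kernel

private lemma p2 : allP (mchk 150) 12 671745 = true := by decide +kernel

private lemma p3 : allP (mchk 150) 12 679937 = true := by decide +kernel

private lemma p4 : allP (mchk 150) 12 688129 = true := by decide +kernel

private lemma p5 : allP (mchk 150) 12 696321 = true := by decide +kernel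

private lemma p6 : allP (mchk 150) 12 704513 = true := by decide +kernel

private lemma p7 : allP (mchk 150) 12 712705 = true := by decide +kernel

lemma mk10 {c : ℕ} (hodd : c % 2 = 1) (h1 : 655360 ≤ c) (h2 : c < 720896) : mchk 150 c = true := by
  by_cases g0 : c < 663552
  · exact allP_mem p0 (by norm_num) hodd (by omega) (by norm_num; omega)
  by_cases g1 : c < 671744
  · exact allP_mem p1 (by norm_num) hodd (by omega) (by norm_num; omega)
  by_cases g2 : c < 679936
  · exact allP_mem p2 (by norm_num) hodd (by omega) (by norm_num; omega)
  by_cases g3 : c < 688128
  · exact allP_mem p3 (by norm_num) hodd (by omega) (by norm_num; omega)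
  by_cases g4 : c < 696320
  · exact allP_mem p4 (by norm_num) hodd (by omega) (by norm_num; omega)
  by_cases g5 : c < 704512
  · exact allP_mem p5 (by norm_num) hodd (by omega) (by norm_num; omega)
  by_cases g6 : c < 712704
  · exact allP_mem p6 (by norm_num) hodd (by omega) (by norm_num; omega)
  exact allP_mem p7 (by norm_num) hodd (by omega) (by norm_num; omega)

end CR44
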