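import Pool.Agent.CR44.L7

/-!
# The residues of the numbers below `2^20`: kernel computation, part 11
(the import only limits the number of these files that are built at the same time)
-/

set_option autoImplicit false

namespace CR44

private lemma p0 : allP (mchk 150) 12 720897 = true := by decide +kernel

private lemma p1 : allP (mchk 150) 12 729089 = true := by decide +kernel

private lemma p2 : allP (mchk 150) 12 737281 = true := by decide +kernel

private lemma p3 : allP (mchk 150) 12 745473 = true := by decide +kernel

private lemma p4 : allP (mchk 150) 12 753665 = true := by decide +kernel

private lemma p5 : allP (mchk 150) 12 761857 = true := by decide +kernel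

private lemma p6 : allP (mchk 150) 12 770049 = true := by decide +kernel

private lemma p7 : allP (mchk 150) 12 778241 = true := by decide +kernel

lemma mk11 {c : ℕ} (hodd : c % 2 = 1) (h1 : 720896 ≤ c) (h2 : c < 786432) : mchk 150 c = true := by
  by_cases g0 : c < 729088
  · exact allP_mem p0 (by norm_num) hodd (by omega) (by norm_num; omega)
  by_cases g1 : c < 737280
  · exact allP_mem p1 (by norm_num) hodd (by omega) (by norm_num; omega)
  by_cases g2 : c < 745472
  · exact allP_mem p2 (by norm_num) hodd (by omega) (by norm_num; omega)
  by_cases g3 : c < 753664
  · exact allP_mem p3 (by norm_num) hodd (by omega) (by norm_num; omega)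
  by_cases g4 : c < 761856
  · exact allP_mem p4 (by norm_num) hodd (by omega) (by norm_num; omega)
  by_cases g5 : c < 770048
  · exact allP_mem p5 (by norm_num) hodd (by omega) (by norm_num; omega)
  by_cases g6 : c < 778240
  · exact allP_mem p6 (by norm_num) hodd (by omega) (by norm_num; omega)
  exact allP_mem p7 (by norm_num) hodd (by omega) (by norm_num; omega)

end CR44
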