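import Pool.Agent.CR44.Low

/-!
# The residues of the numbers below `2^20`: kernel computation, part 3
-/

set_option autoImplicit false

namespace CR44

private lemma p0 : allP (mchk 150) 12 196609 = true := by decide +kernel

private lemma p1 : allP (mchk 150) 12 204801 = true := by decide +kernel

private lemma p2 : allP (mchk 150) 12 212993 = true := by decide +kernel

private lemma p3 : allP (mchk 150) 12 221185 = true := by decide +kernel

private lemma p4 : allP (mchk 150) 12 229377 = true := by decide +kernel

private lemma p5 : allP (mchk 150) 12 237569 = true := by decide +kernel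

private lemma p6 : allP (mchk 150) 12 245761 = true := by decide +kernel

private lemma p7 : allP (mchk 150) 12 253953 = true := by decide +kernel

lemma mk3 {c : ℕ} (hodd : c % 2 = 1) (h1 : 196608 ≤ c) (h2 : c < 262144) : mchk 150 c = true := by
  by_cases g0 : c < 204800
  · exact allP_mem p0 (by norm_num) hodd (by omega) (by norm_num; omega)
  by_cases g1 : c < 212992
  · exact allP_mem p1 (by norm_num) hodd (by omega) (by norm_num; omega)
  by_cases g2 : c < 221184
  · exact allP_mem p2 (by norm_num) hodd (by omega) (by norm_num; omega)
  by_cases g3 : c < 229376
  · exact allP_mem p3 (by norm_num) hodd (by omega) (by norm_num; omega)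
  by_cases g4 : c < 237568
  · exact allP_mem p4 (by norm_num) hodd (by omega) (by norm_num; omega)
  by_cases g5 : c < 245760
  · exact allP_mem p5 (by norm_num) hodd (by omega) (by norm_num; omega)
  by_cases g6 : c < 253952
  · exact allP_mem p6 (by norm_num) hodd (by omega) (by norm_num; omega)
  exact allP_mem p7 (by norm_num) hodd (by omega) (by norm_num; omega)

end CR44
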