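import Pool.Agent.CR44.L0
import Pool.Agent.CR44.L1
import Pool.Agent.CR44.L2
import Pool.Agent.CR44.L3
import Pool.Agent.CR44.L4
import Pool.Agent.CR44.L5
import Pool.Agent.CR44.L6
import Pool.Agent.CR44.L7
import Pool.Agent.CR44.L8
import Pool.Agent.CR44.L9
import Pool.Agent.CR44.L10
import Pool.Agent.CR44.L11
import Pool.Agent.CR44.L12
import Pool.Agent.CR44.L13
import Pool.Agent.CR44.L14
import Pool.Agent.CR44.L15

/-!
# The residues of the numbers below `2^20`

`Res c ≤ 1.25303` for all odd convergent `c < 2^20` except `993`.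
-/

set_option autoImplicit false

namespace CR44

open ColRes81

lemma Res_one : Res 1 = 1 := by
  unfold Res E O
  rw [len_one]
  simp

lemma tabOK : ∀ z : ℕ, z % 2 = 1 → z < 2 ^ 12 → Convergent z → Res z ≤ tv z / 1000000000 := by
  intro z
  induction z using Nat.strong_induction_on with
  | _ z ih =>
    intro hodd hz hc
    have h := allP_mem ltab (by norm_num) hodd (by omega : 1 ≤ z) (by norm_num at hz ⊢; omega)
    unfold tchk at h
    cases h1 : Nat.ble z 1 with
    | true =>
      rw [h1] at h
      have h2 : Nat.ble 1000000000 (tv z) = true := h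
      rw [Nat.ble_eq] at h1 h2
      obtain rfl : z = 1 := by omega
      rw [Res_one, le_div_iff₀ (by norm_num)]
      have h3 : ((1000000000 : ℕ) : ℝ) ≤ ((tv 1 : ℕ) : ℝ) := by exact_mod_cast h2
      push_cast at h3
      linarith
    | false =>
      rw [h1] at h
      have h2 : run z (tv z) 60 (nxt z) (1000000000000 + 1000000000000 / (3 * z) + 1) = true := h
      have hz1 : z ≠ 1 := by
        rintro rfl
        exact absurd h1 (by decide)
      obtain ⟨h3, h4⟩ := bound_aux (c := z) (f := 60) hodd (by
        refine lt_of_lt_of_le (Nat.mul_lt_mul_of_pos_right hz (by positivity)) ?_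
        norm_num)
      rw [h3] at h2
      obtain ⟨h5, h6⟩ := Res_Syr hc hodd hz1
      have h7 := run_spec (B := z) (D := tv z) (by omega) (fun z' ho' hlt hc' => ih z' hlt ho' (by omega) hc')
        60 (Syr z) _ (Syr_odd z) h4 h5 h2
      have h8 := step_le (c := z) (s := 1000000000000) (by omega)
      have h9 := mul_le_mul_of_nonneg_right h8 (Res_pos h5).le
      rw [le_div_iff₀ (by norm_num), h6]
      have h10 : ((1000000000000 : ℕ) : ℝ) = 1000000000000 := by norm_num
      rw [h10] at h9
      linarith

lemma mchk_all {c : ℕ} (hodd : c % 2 = 1) (h1 : 2 ^ 12 ≤ c) (h2 : c < 2 ^ 20) : mchk 150 c = true := by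
  norm_num at h1 h2
  obtain ⟨k, hk⟩ : ∃ k, c / 65536 = k := ⟨_, rfl⟩
  have hk1 : k < 16 := by omega
  interval_cases k
  · by_cases h3 : c < 2 ^ 13
    · exact allP_mem l12 (by norm_num) hodd (by omega) (by norm_num at h3 ⊢; omega)
    by_cases h4 : c < 2 ^ 14
    · exact allP_mem l13 (by norm_num) hodd (by norm_num at h3 ⊢; omega) (by norm_num at h4 ⊢; omega)
    by_cases h5 : c < 2 ^ 15
    · exact allP_mem l14 (by norm_num) hodd (by norm_num at h4 ⊢; omega) (by norm_num at h5 ⊢; omega)
    by_cases h6 : c < 2 ^ 15 + 2 ^ 14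
    · exact allP_mem l15a (by norm_num) hodd (by norm_num at h5 ⊢; omega) (by norm_num at h6 ⊢; omega)
    · exact allP_mem l15b (by norm_num) hodd (by norm_num at h6 ⊢; omega) (by norm_num at h6 ⊢; omega)
  · exact mk1 hodd (by omega) (by omega)
  · exact mk2 hodd (by omega) (by omega)
  · exact mk3 hodd (by omega) (by omega)
  · exact mk4 hodd (by omega) (by omega)
  · exact mk5 hodd (by omega) (by omega)
  · exact mk6 hodd (by omega) (by omega)
  · exact mk7 hodd (by omega) (by omega)
  · exact mk8 hodd (by omega) (by omega)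
  · exact mk9 hodd (by omega) (by omega)
  · exact mk10 hodd (by omega) (by omega)
  · exact mk11 hodd (by omega) (by omega)
  · exact mk12 hodd (by omega) (by omega)
  · exact mk13 hodd (by omega) (by omega)
  · exact mk14 hodd (by omega) (by omega)
  · exact mk15 hodd (by omega) (by omega)

/-- `993` has the largest residue below `2^20`, with a gap. -/
theorem low {c : ℕ} (hodd : c % 2 = 1) (h20 : c < 2 ^ 20) (hc : Convergent c) :
    c = 993 ∨ Res c ≤ 125303 / 100000 := by
  by_cases h12 : c < 2 ^ 12
  · have h := allP_mem ldom (by norm_num) hodd (by omega : 1 ≤ c) (by norm_num at h12 ⊢; omega)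
    unfold dchk at h
    cases h1 : Nat.ble (tv c) 1253030000 with
    | true =>
      right
      rw [Nat.ble_eq] at h1
      refine (tabOK c hodd h12 hc).trans ?_
      have h2 : ((tv c : ℕ) : ℝ) ≤ ((1253030000 : ℕ) : ℝ) := by exact_mod_cast h1
      push_cast at h2
      rw [div_le_iff₀ (by norm_num)]
      linarith
    | false =>
      rw [h1] at h
      have h2 : Nat.beq c 993 = true := h
      exact Or.inl (Nat.eq_of_beq_eq_true h2)
  · right
    have h := mchk_all hodd (not_lt.1 h12) h20
    have h7 := run_spec (B := 4096) (D := 1253030000) (by norm_num) tabOK 150 c 1000000000000 hodd (by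
        refine lt_of_lt_of_le (Nat.mul_lt_mul_of_pos_right h20 (by positivity)) ?_
        norm_num) hc h
    push_cast at h7
    linarith

end CR44
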