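import Pool.Agent.CR44.Tail
import Pool.Agent.ColRes81.Res

/-!
# The part of a trajectory above `2^b`

`Res x ≤ K Res y` for the first term `y < 2^b` of the trajectory of `x`.
-/

set_option autoImplicit false

namespace CR44

open ColRes81

lemma Res_C {x : ℕ} (hx : Convergent x) (h1 : x ≠ 1) :
    Res x = Res (C x) * (if x % 2 = 1 then 1 + 1 / (3 * (x : ℝ)) else 1) := by
  have hE : E x = E (C x) + if x % 2 = 0 then 1 else 0 := by
    show Ek (len x) x = Ek (len (C x)) (C x) + _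
    rw [(len_C hx h1).2, Ek_succ]
  have hO : O x = O (C x) + if x % 2 = 1 then 1 else 0 := by
    show Ok (len x) x = Ok (len (C x)) (C x) + _
    rw [(len_C hx h1).2, Ok_succ]
  have hx0 : (0 : ℝ) < x := by exact_mod_cast hx.1
  have hc0 : (0 : ℝ) < C x := by exact_mod_cast C_pos hx.1
  unfold Res
  rw [hE, hO]
  rcases Nat.mod_two_eq_zero_or_one x with h2 | h2
  · rw [if_pos h2, if_neg (by omega), if_neg (by omega), add_zero, mul_one, pow_succ]
    have h3 : ((C x : ℕ) : ℝ) * 2 = x := by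
      rw [C_even h2]
      have : x / 2 * 2 = x := by omega
      exact_mod_cast this
    rw [← h3]
    field_simp
  · rw [if_neg (by omega), if_pos h2, if_pos h2, add_zero, pow_succ]
    have h3 : ((C x : ℕ) : ℝ) = 3 * x + 1 := by
      rw [C_odd h2]
      push_cast
      ring
    rw [h3]
    field_simp

lemma conv_C {x : ℕ} (hx : Convergent x) : Convergent (C x) := by
  by_cases h1 : x = 1
  · subst h1
    exact ⟨by decide, 2, by decide⟩
  · exact (len_C hx h1).1

lemma conv_iter (k : ℕ) : ∀ x : ℕ, Convergent x → Convergent (C^[k] x) := by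
  induction k with
  | zero => intro x hx; exact hx
  | succ k ih => intro x hx; rw [Function.iterate_succ_apply]; exact ih _ (conv_C hx)

lemma Res_pos {x : ℕ} (hx : Convergent x) : 0 < Res x := by
  have hx0 : (0 : ℝ) < x := by exact_mod_cast hx.1
  unfold Res
  positivity

lemma Res_pow (j : ℕ) : ∀ c : ℕ, 0 < c → Convergent (2 ^ j * c) →
    Convergent c ∧ Res (2 ^ j * c) = Res c := by
  induction j with
  | zero => intro c _ h; rw [pow_zero, one_mul] at *; exact ⟨h, rfl⟩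
  | succ j ih =>
    intro c hc h
    have h1 : 2 ^ (j + 1) * c = 2 * (2 ^ j * c) := by ring
    rw [h1] at h ⊢
    have h2 : 0 < 2 ^ j * c := by positivity
    have h3 : C (2 * (2 ^ j * c)) = 2 ^ j * c := by
      rw [C_even (by omega)]
      omega
    have h4 := conv_C h
    have h6 := Res_C h (by omega)
    rw [h3] at h4 h6
    rw [if_neg (by omega), mul_one] at h6
    obtain ⟨h7, h8⟩ := ih c hc h4
    exact ⟨h7, h6.trans h8⟩

lemma Res_Syr {c : ℕ} (hc : Convergent c) (hodd : c % 2 = 1) (h1 : c ≠ 1) :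
    Convergent (Syr c) ∧ Res c = Res (Syr c) * (1 + 1 / (3 * (c : ℝ))) := by
  have h2 := conv_C hc
  have h4 := Res_C hc h1
  rw [if_pos hodd] at h4
  rw [C_odd hodd, ← Syr_eq c] at h2 h4
  have hpos : 0 < Syr c := by
    have := Syr_odd c
    omega
  obtain ⟨h5, h6⟩ := Res_pow _ _ hpos h2
  rw [h6] at h4
  exact ⟨h5, h4⟩

lemma Res_iter (q : ℕ) : ∀ c : ℕ, Convergent c → c % 2 = 1 → (∀ i < q, Syr^[i] c ≠ 1) →
    Convergent (Syr^[q] c) ∧ Res (Syr^[q] c) ≤ Res c ∧
      Res c ≤ Real.exp (1 / 3 * ∑ i ∈ Finset.range q, (1 : ℝ) / (Syr^[i] c : ℕ)) * Res (Syr^[q] c) := by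
  induction q with
  | zero => intro c hc _ _; simpa using hc
  | succ q ih =>
    intro c hc hodd h
    obtain ⟨h1, h2⟩ := Res_Syr hc hodd (h 0 (by omega))
    obtain ⟨h3, h4, h5⟩ := ih (Syr c) h1 (Syr_odd c) (fun i hi => by
      have := h (i + 1) (by omega)
      rwa [Function.iterate_succ_apply] at this)
    rw [Function.iterate_succ_apply, Finset.sum_range_succ']
    simp only [Function.iterate_succ_apply, Function.iterate_zero, id]
    have hc0 : (0 : ℝ) < c := by exact_mod_cast hc.1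
    have h6 := Res_pos h1
    have h7 := Res_pos h3
    have h8 : (0 : ℝ) < 1 / (3 * (c : ℝ)) := by positivity
    refine ⟨h3, ?_, ?_⟩
    · rw [h2]
      nlinarith
    · have h9 : 1 + 1 / (3 * (c : ℝ)) ≤ Real.exp (1 / (3 * (c : ℝ))) := by
        have := Real.add_one_le_exp (1 / (3 * (c : ℝ)))
        linarith
      have h10 : (1 : ℝ) / 3 * (∑ i ∈ Finset.range q, (1 : ℝ) / ((Syr^[i] (Syr c) : ℕ) : ℝ) + 1 / (c : ℝ)) =
          1 / 3 * ∑ i ∈ Finset.range q, (1 : ℝ) / ((Syr^[i] (Syr c) : ℕ) : ℝ) + 1 / (3 * (c : ℝ)) := by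
        field_simp
      rw [h2, h10, Real.exp_add]
      calc Res (Syr c) * (1 + 1 / (3 * (c : ℝ))) ≤ Res (Syr c) * Real.exp (1 / (3 * (c : ℝ))) :=
            mul_le_mul_of_nonneg_left h9 h6.le
        _ ≤ _ := by
            have := mul_le_mul_of_nonneg_right h5 (Real.exp_pos (1 / (3 * (c : ℝ)))).le
            linarith

/-! ### The first term below `N` -/

lemma C_iter_pow {c : ℕ} (hc : 0 < c) (i : ℕ) : ∀ j, i ≤ j → C^[i] (2 ^ j * c) = 2 ^ (j - i) * c := by
  induction i with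
  | zero => intro j _; simp
  | succ i ih =>
    intro j hj
    obtain ⟨j, rfl⟩ : ∃ j', j = j' + 1 := ⟨j - 1, by omega⟩
    have h1 : 2 ^ (j + 1) * c = 2 * (2 ^ j * c) := by ring
    have h3 : C (2 * (2 ^ j * c)) = 2 ^ j * c := by
      rw [C_even (by omega)]
      omega
    rw [Function.iterate_succ_apply, h1, h3, ih j (by omega)]
    congr 2
    omega

lemma first_term {N : ℕ} (q : ℕ) : ∀ j c : ℕ, Orb c q N →
    ∃ k i, C^[k] (2 ^ j * c) = 2 ^ i * Syr^[q] c ∧ C^[k] (2 ^ j * c) < N ∧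
      ∀ l < k, N ≤ C^[l] (2 ^ j * c) := by
  induction q with
  | zero =>
    intro j c h
    have hc : 0 < c := by have := h.odd; omega
    have hlt : c < N := h.lt
    classical
    have hex : ∃ k, C^[k] (2 ^ j * c) < N := ⟨j, by
      rw [C_iter_pow hc j j le_rfl]
      simpa using hlt⟩
    have hkj : Nat.find hex ≤ j := Nat.find_min' hex (by
      rw [C_iter_pow hc j j le_rfl]
      simpa using hlt)
    refine ⟨Nat.find hex, j - Nat.find hex, ?_, Nat.find_spec hex, fun l hl => ?_⟩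
    · rw [C_iter_pow hc _ j hkj]
      rfl
    · exact not_lt.1 (Nat.find_min hex hl)
  | succ q ih =>
    intro j c h
    have hc : 0 < c := by have := h.odd; omega
    have hge : N ≤ c := h.ge 0 (by omega)
    have hS : Orb (Syr c) q N := ⟨Syr_odd c, fun i hi => by
      have := h.ge (i + 1) (by omega)
      rwa [Function.iterate_succ_apply] at this, by
      have := h.lt
      rwa [Function.iterate_succ_apply] at this⟩
    have hCc : C c = 2 ^ ((3 * c + 1).factorization 2) * Syr c := by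
      rw [C_odd h.odd, Syr_eq c]
    obtain ⟨k, i, h1, h2, h3⟩ := ih ((3 * c + 1).factorization 2) (Syr c) hS
    rw [← hCc] at h1 h2 h3
    have hadd : ∀ l, C^[l + (j + 1)] (2 ^ j * c) = C^[l] (C c) := by
      intro l
      rw [Function.iterate_add_apply, Function.iterate_succ_apply', C_iter_pow hc j j le_rfl]
      simp
    refine ⟨k + (j + 1), i, ?_, ?_, fun l hl => ?_⟩
    · rw [hadd, h1, Function.iterate_succ_apply]
    · rw [hadd]
      exact h2
    · by_cases hlj : l ≤ j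
      · rw [C_iter_pow hc l j hlj]
        calc N ≤ 1 * c := by omega
          _ ≤ 2 ^ (j - l) * c := Nat.mul_le_mul_right _ Nat.one_le_two_pow
      · obtain ⟨l', rfl⟩ : ∃ l', l = l' + (j + 1) := ⟨l - (j + 1), by omega⟩
        rw [hadd]
        exact h3 l' (by omega)

/-- The first term below `2^b₀`. -/
theorem red {b₀ : ℕ} (hb : 20 ≤ b₀) (l : List (ℕ × ℕ × ℕ)) (hl : chk l b₀ 0 0 = true) {K : ℝ}
    (hK : Real.exp (1 / 3 * ((((l.map fun x => x.2.2).sum : ℕ) : ℝ) / Q * (69315 / 100000) +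
      67 * (97 / 100) ^ (b₀ + l.length))) ≤ K) {x : ℕ} (hx : Convergent x) :
    ∃ k, C^[k] x < 2 ^ b₀ ∧ (∀ i < k, 2 ^ b₀ ≤ C^[i] x) ∧ Res (C^[k] x) ≤ Res x ∧
      Res x ≤ K * Res (C^[k] x) := by
  obtain ⟨j, c, hc, rfl⟩ : ∃ j c, c % 2 = 1 ∧ x = 2 ^ j * c := by
    refine ⟨x.factorization 2, ordCompl[2] x, ?_, (Nat.ordProj_mul_ordCompl_eq_self _ _).symm⟩
    have h : ¬ 2 ∣ ordCompl[2] x := Nat.not_dvd_ordCompl Nat.prime_two hx.1.ne'
    omega
  obtain ⟨hcc, hR⟩ := Res_pow j c (by omega) hx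
  have h20 : 2 ≤ 2 ^ b₀ := by
    calc 2 = 2 ^ 1 := by norm_num
      _ ≤ 2 ^ b₀ := Nat.pow_le_pow_right (by norm_num) (by omega)
  classical
  obtain ⟨j', hj'⟩ := reach (len c) c hcc hc le_rfl
  have hex : ∃ j, Syr^[j] c < 2 ^ b₀ := ⟨j', by rw [hj']; omega⟩
  have horb : Orb c (Nat.find hex) (2 ^ b₀) :=
    ⟨hc, fun i hi => not_lt.1 (Nat.find_min hex hi), Nat.find_spec hex⟩
  obtain ⟨h2, h3, h4⟩ := Res_iter (Nat.find hex) c hcc hc fun i hi h4 => by
    have := horb.ge i hi
    omega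
  obtain ⟨k, i, h5, h6, h7⟩ := first_term (Nat.find hex) j c horb
  have h8 : Res (C^[k] (2 ^ j * c)) = Res (Syr^[Nat.find hex] c) := by
    have h9 := conv_iter k _ hx
    rw [h5] at h9 ⊢
    exact (Res_pow i _ h2.1 h9).2
  refine ⟨k, h6, h7, ?_, ?_⟩
  · rw [h8, hR]
    exact h3
  · rw [h8, hR]
    refine h4.trans (mul_le_mul_of_nonneg_right (le_trans (Real.exp_le_exp.2 ?_) hK) (Res_pos h2).le)
    exact mul_le_mul_of_nonneg_left (sum_leN horb hb l hl) (by norm_num)

/-- A bound for the exponential function. -/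
lemma exp_le_of {t K : ℝ} (m : ℕ) (hm : 0 < m) (h0 : t ≤ m) (h : 1 ≤ K * (1 - t / m) ^ m) : Real.exp t ≤ K := by
  have hm0 : (0 : ℝ) < m := by exact_mod_cast hm
  have h1 : 0 ≤ 1 - t / m := by
    rw [sub_nonneg, div_le_one hm0]
    exact h0
  have h2 : (1 - t / m) ^ m ≤ Real.exp (-t) := by
    have h3 : 1 - t / m ≤ Real.exp (-(t / m)) := by
      have := Real.add_one_le_exp (-(t / m))
      linarith
    calc (1 - t / m) ^ m ≤ (Real.exp (-(t / m))) ^ m := pow_le_pow_left₀ h1 h3 m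
      _ = Real.exp (-t) := by
        rw [← Real.exp_nat_mul]
        congr 1
        field_simp
  have hK : 0 ≤ K := by
    by_contra hcon
    push Not at hcon
    have : K * (1 - t / m) ^ m ≤ 0 := mul_nonpos_of_nonpos_of_nonneg hcon.le (by positivity)
    linarith
  have h4 : 1 ≤ K * Real.exp (-t) := h.trans (mul_le_mul_of_nonneg_left h2 hK)
  have h5 := mul_le_mul_of_nonneg_right h4 (Real.exp_pos t).le
  rw [mul_assoc, ← Real.exp_add] at h5
  simpa using h5

lemma pow_400 {b₀ m : ℕ} (h : b₀ + m = 400) : ((97 : ℝ) / 100) ^ (b₀ + m) ≤ 52 / 10000000 := by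
  rw [h]
  have h1 : ((97 : ℝ) / 100) ^ 400 = ((97 / 100) ^ 100) ^ 4 := by rw [← pow_mul]
  rw [h1]
  norm_num

end CR44
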