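import Pool.Agent.ColRes81.Sum

/-!
# The terms of a trajectory above `2^b`, for every `b`

Versions of the bounds of `ColRes81` for an arbitrary level `2^b₀ ≥ 2^20` in the place of `2^20`.
-/

set_option autoImplicit false

namespace CR44

open ColRes81

theorem tailN {c q N₀ : ℕ} (h : Orb c q N₀) (hN : 2 ^ 20 ≤ N₀) (b : ℕ) :
    (g c q (2 ^ b) : ℝ) ≤ (97 / 50) ^ b := by
  induction b using Nat.strong_induction_on with
  | _ b ih =>
    by_cases hb : b ≤ 20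
    · rw [h.g_zero ((Nat.pow_le_pow_right (by norm_num) hb).trans hN), Nat.cast_zero]
      positivity
    obtain ⟨κ, r, hr, hκ, rfl⟩ : ∃ κ r, r < 8 ∧ 1 ≤ κ ∧ b = 8 * κ + 6 + r :=
      ⟨(b - 6) / 8, (b - 6) % 8, Nat.mod_lt _ (by norm_num), by omega, by omega⟩
    have hcut : (3 : ℝ) ^ (5 * κ) / 2 ^ (8 * κ + 1) * ((2 ^ (8 * κ + 6 + r) : ℕ) : ℝ) + (3 / 2) ^ (5 * κ) ≤
        ((2 ^ (8 * κ + 5 + r) : ℕ) : ℝ) + 1 := by
      push_cast
      have h1 : (3 : ℝ) ^ (5 * κ) / 2 ^ (8 * κ + 1) * 2 ^ (8 * κ + 6 + r) = 243 ^ κ * 2 ^ (5 + r) := by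
        have h2 : (2 : ℝ) ^ (8 * κ + 6 + r) = 2 ^ (8 * κ + 1) * 2 ^ (5 + r) := by
          rw [← pow_add]; congr 1; ring
        rw [h2, pow_mul]
        field_simp
        norm_num
      have h3 : (3 / 2 : ℝ) ^ (5 * κ) ≤ 8 ^ κ := by
        rw [pow_mul]
        exact pow_le_pow_left₀ (by positivity) (by norm_num) _
      have h4 : (2 : ℝ) ^ (8 * κ + 5 + r) = 256 ^ κ * 2 ^ (5 + r) := by
        rw [show 8 * κ + 5 + r = 8 * κ + (5 + r) by ring, pow_add, pow_mul]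
        norm_num
      have h5 := pow_aux κ hκ
      have h6 : (1 : ℝ) ≤ 2 ^ (5 + r) := one_le_pow₀ (by norm_num)
      have h7 : (0 : ℝ) < 8 ^ κ := by positivity
      rw [h1, h4]
      nlinarith
    have h1 := h.g_step (5 * κ) (8 * κ + 1) _ _ hcut
    have h2 := slow_interval (8 * κ + 1) (5 * κ + 1) ((2 ^ (8 * κ + 6 + r) + 1) / 2) (2 ^ (8 * κ + 6 + r))
    have h3 := ih (8 * κ + 5 + r) (by omega)
    have h4 := tail_num κ r hr
    have h5 := Mr_chernoff (8 * κ + 1) (5 * κ + 1)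
    have h6 : (((2 ^ (8 * κ + 6 + r) - (2 ^ (8 * κ + 6 + r) + 1) / 2) / (3 * 2 ^ (8 * κ + 1)) : ℕ) : ℝ) ≤
        2 ^ (4 + r) / 3 := by
      have h7 : 2 ^ (8 * κ + 6 + r) - (2 ^ (8 * κ + 6 + r) + 1) / 2 ≤ 2 ^ (8 * κ + 5 + r) := by
        have : 2 ^ (8 * κ + 6 + r) = 2 * 2 ^ (8 * κ + 5 + r) := by rw [← pow_succ']; congr 1; ring
        omega
      have h8 : (2 ^ (8 * κ + 6 + r) - (2 ^ (8 * κ + 6 + r) + 1) / 2) / (3 * 2 ^ (8 * κ + 1)) ≤
          2 ^ (8 * κ + 5 + r) / (3 * 2 ^ (8 * κ + 1)) := Nat.div_le_div_right h7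
      have h9 : ((2 ^ (8 * κ + 5 + r) / (3 * 2 ^ (8 * κ + 1)) : ℕ) : ℝ) ≤
          ((2 ^ (8 * κ + 5 + r) : ℕ) : ℝ) / ((3 * 2 ^ (8 * κ + 1) : ℕ) : ℝ) := Nat.cast_div_le
      refine (Nat.cast_le.2 h8).trans (h9.trans (le_of_eq ?_))
      push_cast
      have h10 : (2 : ℝ) ^ (8 * κ + 5 + r) = 2 ^ (8 * κ + 1) * 2 ^ (4 + r) := by
        rw [← pow_add]; congr 1; ring
      rw [h10]
      field_simp
    have h11 : (((Finset.Ico ((2 ^ (8 * κ + 6 + r) + 1) / 2) (2 ^ (8 * κ + 6 + r))).filter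
        (slow (8 * κ + 1) (5 * κ + 1))).card : ℝ) ≤ (2 ^ (4 + r) / 3 + 1) * (2 * ((8 / 3) ^ (8 * κ + 1) *
          (3 / 5) ^ (5 * κ + 1))) := by
      refine (Nat.cast_le.2 h2).trans ?_
      push_cast
      apply mul_le_mul (by linarith) (by linarith) (by positivity) (by positivity)
    have h12 : (g c q (2 ^ (8 * κ + 6 + r)) : ℝ) ≤ ((5 * κ + 1 : ℕ) : ℝ) +
        (((Finset.Ico ((2 ^ (8 * κ + 6 + r) + 1) / 2) (2 ^ (8 * κ + 6 + r))).filter
        (slow (8 * κ + 1) (5 * κ + 1))).card : ℝ) + (g c q (2 ^ (8 * κ + 5 + r)) : ℝ) := by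
      exact_mod_cast h1
    push_cast at h12
    linarith

theorem tail_sumN {c q N₀ : ℕ} (h : Orb c q N₀) (hN : 2 ^ 20 ≤ N₀) (B m : ℕ) (hB : 20 ≤ B) :
    ∑ t ∈ Finset.Ico (2 ^ B - 1) (2 ^ (B + m) - 1), f c q t ≤
      97 / 50 * (97 / 100) ^ B * ((1 - (97 / 100) ^ m) / (3 / 100)) := by
  induction m with
  | zero => simp
  | succ m ih =>
    have h4 : 2 ^ B ≤ 2 ^ (B + m) := Nat.pow_le_pow_right (by norm_num) (by omega)
    have h5 : 2 ^ (B + m) ≤ 2 ^ (B + (m + 1)) := Nat.pow_le_pow_right (by norm_num) (by omega)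
    rw [← Finset.sum_Ico_consecutive _ (Nat.sub_le_sub_right h4 1) (Nat.sub_le_sub_right h5 1)]
    have h7 : ∑ t ∈ Finset.Ico (2 ^ (B + m) - 1) (2 ^ (B + (m + 1)) - 1), f c q t ≤
        97 / 50 * (97 / 100) ^ (B + m) := by
      obtain ⟨b, hb⟩ : ∃ b, b = B + m := ⟨_, rfl⟩
      rw [← add_assoc, ← hb]
      have hp : 2 ^ 20 ≤ 2 ^ b := Nat.pow_le_pow_right (by norm_num) (by omega)
      norm_num at hp
      have h1 : 2 ^ (b + 1) - 1 = (2 ^ b - 1) + 2 ^ b := by rw [pow_succ]; omega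
      calc _ ≤ ∑ t ∈ Finset.Ico (2 ^ b - 1) (2 ^ (b + 1) - 1),
            (97 / 50 : ℝ) ^ (b + 1) * (1 / (((t : ℕ) : ℝ) * (t + 1))) := by
            apply Finset.sum_le_sum
            intro t ht
            rw [Finset.mem_Ico] at ht
            unfold f
            apply mul_le_mul_of_nonneg_right _ (by positivity)
            refine le_trans ?_ (tailN h hN (b + 1))
            exact_mod_cast g_mono c q (by omega : t + 1 ≤ 2 ^ (b + 1))
        _ = (97 / 50 : ℝ) ^ (b + 1) * (1 / ((2 ^ b - 1 : ℕ) : ℝ) - 1 / (((2 ^ b - 1 : ℕ) : ℝ) + ((2 ^ b : ℕ) : ℝ))) := by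
            rw [← Finset.mul_sum, h1, sum_phi _ _ (by omega)]
        _ ≤ (97 / 50 : ℝ) ^ (b + 1) * (1 / 2 ^ b) := by
            apply mul_le_mul_of_nonneg_left _ (by positivity)
            have h2 : ((2 ^ b - 1 : ℕ) : ℝ) = 2 ^ b - 1 := by
              rw [Nat.cast_sub (by omega)]
              push_cast
              ring
            have h0' : (1048576 : ℝ) ≤ 2 ^ b := by exact_mod_cast hp
            rw [h2]
            push_cast
            obtain ⟨y, hy⟩ : ∃ y : ℝ, y = 2 ^ b := ⟨_, rfl⟩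
            rw [← hy] at h0' ⊢
            have e1 : 1 / (y - 1) - 1 / (y - 1 + y) = y / ((y - 1) * (y - 1 + y)) := by
              have h1 : y - 1 ≠ 0 := by linarith
              have h2 : y - 1 + y ≠ 0 := by linarith
              field_simp
              ring
            rw [e1, div_le_div_iff₀ (by apply mul_pos <;> linarith) (by linarith)]
            nlinarith
        _ = _ := by
            rw [pow_succ, mul_one_div, mul_comm _ (97 / 50 : ℝ), mul_div_assoc, ← div_pow]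
            norm_num
    have h8 : (97 / 50 : ℝ) * (97 / 100) ^ B * ((1 - (97 / 100) ^ (m + 1)) / (3 / 100)) =
        97 / 50 * (97 / 100) ^ B * ((1 - (97 / 100) ^ m) / (3 / 100)) + 97 / 50 * (97 / 100) ^ (B + m) := by
      rw [pow_add, pow_succ]
      ring
    rw [h8]
    exact add_le_add ih h7

/-- The sum of the inverses of the terms before the first one below `2^b₀`. -/
theorem sum_leN {c q b₀ : ℕ} (h : Orb c q (2 ^ b₀)) (hb : 20 ≤ b₀) (l : List (ℕ × ℕ × ℕ))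
    (hl : chk l b₀ 0 0 = true) :
    ∑ i ∈ Finset.range q, (1 : ℝ) / (Syr^[i] c : ℕ) ≤
      (((l.map fun x => x.2.2).sum : ℕ) : ℝ) / Q * (69315 / 100000) + 67 * (97 / 100) ^ (b₀ + l.length) := by
  have hN : 2 ^ 20 ≤ 2 ^ b₀ := Nat.pow_le_pow_right (by norm_num) hb
  obtain ⟨B, hB⟩ : ∃ B, B = b₀ + l.length := ⟨_, rfl⟩
  have hBb : b₀ ≤ B := by omega
  -- a power of two above all terms
  obtain ⟨B', hB', hM⟩ : ∃ B', B ≤ B' ∧ ∀ i < q, Syr^[i] c < 2 ^ B' - 1 := by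
    obtain ⟨A, hA⟩ : ∃ A, ∀ i < q, Syr^[i] c ≤ A := by
      refine ⟨∑ i ∈ Finset.range q, Syr^[i] c, fun i hi => ?_⟩
      exact Finset.single_le_sum (f := fun i => Syr^[i] c) (fun _ _ => Nat.zero_le _) (Finset.mem_range.2 hi)
    refine ⟨A + B, by omega, fun i hi => ?_⟩
    have h1 := hA i hi
    have h2 : A + B < 2 ^ (A + B) := Nat.lt_two_pow_self
    omega
  obtain ⟨m, rfl⟩ : ∃ m, B' = B + m := Nat.exists_eq_add_of_le hB'
  rw [sum_eq h.odd fun i hi => (hM i hi).le]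
  have hp0 : 2 ^ b₀ ≤ 2 ^ B := Nat.pow_le_pow_right (by norm_num) hBb
  have hp3 : 2 ^ B ≤ 2 ^ (B + m) := Nat.pow_le_pow_right (by norm_num) (by omega)
  have hp4 : 2 ^ 20 = 1048576 := by norm_num
  have h1 : ∑ t ∈ Finset.Ico 1 (2 ^ (B + m) - 1), f c q t =
      ∑ t ∈ Finset.Ico 1 (2 ^ b₀ - 1), f c q t + (∑ t ∈ Finset.Ico (2 ^ b₀ - 1) (2 ^ B - 1), f c q t +
        ∑ t ∈ Finset.Ico (2 ^ B - 1) (2 ^ (B + m) - 1), f c q t) := by
    rw [Finset.sum_Ico_consecutive _ (Nat.sub_le_sub_right hp0 1) (Nat.sub_le_sub_right hp3 1),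
      Finset.sum_Ico_consecutive _ (by omega) (Nat.sub_le_sub_right (hp0.trans hp3) 1)]
  have h2 : ∑ t ∈ Finset.Ico 1 (2 ^ b₀ - 1), f c q t = 0 := by
    refine Finset.sum_eq_zero fun t ht => ?_
    rw [Finset.mem_Ico] at ht
    unfold f
    rw [h.g_zero (by omega), Nat.cast_zero, zero_mul]
  have hcells := h.cells l b₀ 0 0 hl (fun N h1 h2 => by rw [h.g_zero (by omega)]; simp)
    (fun N h1 h2 => by rw [h.g_zero (by omega)]; simp)
  have h3 := cells_sum l b₀ hb hcells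
  rw [← hB] at h3 ⊢
  have h4 := tail_sumN h hN B m (by omega)
  have h5 : (97 / 50 : ℝ) * (97 / 100) ^ B * ((1 - (97 / 100) ^ m) / (3 / 100)) ≤
      97 / 50 * (97 / 100) ^ B * (1 / (3 / 100)) := by
    apply mul_le_mul_of_nonneg_left _ (by positivity)
    apply div_le_div_of_nonneg_right _ (by norm_num)
    have : (0 : ℝ) < (97 / 100) ^ m := by positivity
    linarith
  have h6 : (q : ℝ) * (1 / ((2 ^ (B + m) - 1 : ℕ) : ℝ)) ≤ 2 * (97 / 100) ^ B := by
    have h7 : (q : ℝ) ≤ (97 / 50) ^ (B + m) := by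
      refine le_trans (le_of_eq ?_) (tailN h hN (B + m))
      unfold g
      rw [Finset.filter_true_of_mem, Finset.card_range]
      intro i hi
      have := hM i (Finset.mem_range.1 hi)
      omega
    have h8 : (2 : ℝ) ^ (B + m) / 2 ≤ ((2 ^ (B + m) - 1 : ℕ) : ℝ) := by
      rw [Nat.cast_sub (by omega)]
      push_cast
      have : (2 : ℝ) ≤ 2 ^ (B + m) := by
        calc (2 : ℝ) = 2 ^ 1 := by norm_num
          _ ≤ 2 ^ (B + m) := pow_le_pow_right₀ (by norm_num) (by omega)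
      linarith
    calc (q : ℝ) * (1 / ((2 ^ (B + m) - 1 : ℕ) : ℝ)) ≤ (97 / 50) ^ (B + m) * (1 / (2 ^ (B + m) / 2)) := by
          apply mul_le_mul h7 _ (by positivity) (by positivity)
          exact one_div_le_one_div_of_le (by positivity) h8
      _ = 2 * (97 / 100) ^ (B + m) := by
          rw [mul_one_div, div_div_eq_mul_div, mul_comm, mul_div_assoc, ← div_pow]
          norm_num
      _ ≤ 2 * (97 / 100) ^ B := by
          apply mul_le_mul_of_nonneg_left _ (by norm_num)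
          exact pow_le_pow_of_le_one (by norm_num) (by norm_num) (by omega)
  have h7 : (0 : ℝ) < (97 / 100) ^ B := by positivity
  rw [h1, h2, zero_add]
  linarith

end CR44
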